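import Pool.Agent.H938_Salem4.Z5

set_option autoImplicit false

/-!
# The exceptional set of Bernoulli convolutions: a dichotomy

Either the Bernoulli convolution is absolutely continuous for every parameter close to `1`, or the
set of parameters in `(1/2, 1)` for which it is not absolutely continuous is an uncountable
`G_δ` set which is dense in `(1/2, 1)`.
-/

open MeasureTheory

namespace Pool.Agent.Results.MP_21f5c5_an.ExceptionalDichotomy

/-- Either the law of `∑ ± t^n` is absolutely continuous for all `t < 1` close to `1`, or the set of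
`t ∈ (1/2, 1)` for which it is not absolutely continuous is a `G_δ`, dense in `(1/2, 1)` and
uncountable. -/
theorem result :
    (∃ t0 : ℝ, t0 < 1 ∧ ∀ t : ℝ, t0 < t → t < 1 →
      (Measure.map
          (fun ω : ℕ → Bool => ∑' n : ℕ, (if ω n then (1 : ℝ) else -1) * t ^ n)
          (Measure.infinitePi (fun _ : ℕ => (PMF.uniformOfFintype Bool).toMeasure))
        ≪ (volume : Measure ℝ))) ∨
    (IsGδ {t : ℝ | t ∈ Set.Ioo (1 / 2 : ℝ) 1 ∧
        ¬ (Measure.map
          (fun ω : ℕ → Bool => ∑' n : ℕ, (if ω n then (1 : ℝ) else -1) * t ^ n)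
          (Measure.infinitePi (fun _ : ℕ => (PMF.uniformOfFintype Bool).toMeasure))
        ≪ (volume : Measure ℝ))} ∧
      Set.Ioo (1 / 2 : ℝ) 1 ⊆ closure {t : ℝ | t ∈ Set.Ioo (1 / 2 : ℝ) 1 ∧
        ¬ (Measure.map
          (fun ω : ℕ → Bool => ∑' n : ℕ, (if ω n then (1 : ℝ) else -1) * t ^ n)
          (Measure.infinitePi (fun _ : ℕ => (PMF.uniformOfFintype Bool).toMeasure))
        ≪ (volume : Measure ℝ))} ∧
      ¬ {t : ℝ | t ∈ Set.Ioo (1 / 2 : ℝ) 1 ∧
        ¬ (Measure.map
          (fun ω : ℕ → Bool => ∑' n : ℕ, (if ω n then (1 : ℝ) else -1) * t ^ n)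
          (Measure.infinitePi (fun _ : ℕ => (PMF.uniformOfFintype Bool).toMeasure))
        ≪ (volume : Measure ℝ))}.Countable) :=
  Pool.Agent.H938.dichotomy

end Pool.Agent.Results.MP_21f5c5_an.ExceptionalDichotomy
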