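import Pool.Agent.H938_Salem4.MRT
import Pool.Agent.H938_Salem4.D4
import Pool.Agent.H938_Salem4.D5
import Pool.Agent.H938_Salem4.R1a
import Pool.Agent.H938_Salem4.R1b

set_option autoImplicit false

/-!
# Bernoulli convolutions at Salem numbers of degree four are not absolutely continuous

For every `t ∈ (1/2, 1)` such that `1/t` is a Salem number of degree four the Bernoulli convolution
with parameter `t` is not absolutely continuous, and such `t` exist.  These are parameters whose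
reciprocal is not a Pisot number (it has conjugates on the unit circle).
-/

open MeasureTheory

namespace Pool.Agent.Results.MP_21f5c5_an.SalemFourSingular

/-- There are `t ∈ (1/2, 1)` for which `1/t` is a Salem number of degree four, and for each of them
the law of `∑ ± t^n` is not absolutely continuous. -/
theorem result :
    (∃ t : ℝ, t ∈ Set.Ioo (1 / 2 : ℝ) 1 ∧
      (IsIntegral ℤ t⁻¹ ∧ (minpoly ℚ t⁻¹).natDegree = 4 ∧
        (∀ z ∈ (minpoly ℚ t⁻¹).aroots ℂ, z ≠ ((t⁻¹ : ℝ) : ℂ) → ‖z‖ ≤ 1) ∧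
        (∃ z ∈ (minpoly ℚ t⁻¹).aroots ℂ, ‖z‖ = 1))) ∧
    ∀ t : ℝ, t ∈ Set.Ioo (1 / 2 : ℝ) 1 →
      (IsIntegral ℤ t⁻¹ ∧ (minpoly ℚ t⁻¹).natDegree = 4 ∧
        (∀ z ∈ (minpoly ℚ t⁻¹).aroots ℂ, z ≠ ((t⁻¹ : ℝ) : ℂ) → ‖z‖ ≤ 1) ∧
        (∃ z ∈ (minpoly ℚ t⁻¹).aroots ℂ, ‖z‖ = 1)) →
      ¬ (Measure.map
          (fun ω : ℕ → Bool => ∑' n : ℕ, (if ω n then (1 : ℝ) else -1) * t ^ n)
          (Measure.infinitePi (fun _ : ℕ => (PMF.uniformOfFintype Bool).toMeasure))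
        ≪ (volume : Measure ℝ)) := by
  constructor
  · obtain ⟨l, h1, h2, h3, ⟨h4, _, h6, h7⟩, _⟩ := Pool.Agent.H938.salem_hyp_four
    exact ⟨l, ⟨h1, h2⟩, h4, h3, h6, h7⟩
  · intro t ht hS
    obtain ⟨hint, hdeg, hle, hone⟩ := hS
    have ht0 : 0 < t := by linarith [ht.1]
    have h1 : 1 < t⁻¹ := (one_lt_inv₀ ht0).mpr ht.2
    have h2 : t⁻¹ < 2 := by
      rw [inv_lt_comm₀ ht0 (by norm_num)]
      linarith [ht.1]
    obtain ⟨ζ, H⟩ := Pool.Agent.H938.S4_of_salem h1 h2 hint hdeg hle hone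
    rw [inv_inv] at H
    obtain ⟨hprob, hchar⟩ := Pool.Agent.H938.nuB_char ht0 ht.2
    exact Pool.Agent.H938.not_ac_of_res H (fun K => Pool.Agent.H938.MRT H K)
      (Pool.Agent.H938.nuB t) hchar

end Pool.Agent.Results.MP_21f5c5_an.SalemFourSingular
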